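import Pool.Agent.H48.HMS.Stm

/-! # HMS: addition of binary integers in polynomial time -/

set_option autoImplicit false

namespace Pool.HMS

open TMLib Finset Polynomial Pool.Agent.H74.PPAD

/-- the sign of a sum -/
private def addS (sa sb : Bool) (a b : List Bool) : Bool :=
  if sa = sb then sa else if ltB a b = true then sb else sa

/-- the absolute value of a sum -/
private def addA (sa sb : Bool) (a b : List Bool) : List Bool :=
  if sa = sb then addB a b else if ltB a b = true then subB b a else subB a b

private lemma add_eq (x y : ℤ) :
    zmk (addS (decide (x < 0)) (decide (y < 0)) x.natAbs.bits y.natAbs.bits)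
      (addA (decide (x < 0)) (decide (y < 0)) x.natAbs.bits y.natAbs.bits) = x + y := by
  unfold addS addA
  have e1 := addB_spec x.natAbs.bits y.natAbs.bits
  have e2 := ltB_spec x.natAbs.bits y.natAbs.bits
  have e3 := subB_spec x.natAbs.bits y.natAbs.bits
  have e4 := subB_spec y.natAbs.bits x.natAbs.bits
  rw [num_bits', num_bits'] at e1 e2 e3 e4
  by_cases h : decide (x < 0) = decide (y < 0)
  · rw [if_pos h, if_pos h]
    unfold zmk
    rw [e1]
    by_cases hx : x < 0
    · have hy : y < 0 := by
        rw [decide_eq_true hx] at h
        exact of_decide_eq_true h.symm
      rw [if_pos (decide_eq_true hx)]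
      omega
    · have hy : ¬ y < 0 := by
        rw [decide_eq_false hx] at h
        exact of_decide_eq_false h.symm
      rw [if_neg (by simpa using hx)]
      omega
  · rw [if_neg h, if_neg h, e2]
    by_cases hlt : x.natAbs < y.natAbs
    · rw [if_pos (decide_eq_true hlt), if_pos (decide_eq_true hlt)]
      have e5 := e4 hlt.le
      unfold zmk
      by_cases hy : y < 0
      · rw [if_pos (decide_eq_true hy)]
        have hx : ¬ x < 0 := by
          intro hx
          apply h
          rw [decide_eq_true hx, decide_eq_true hy]
        omega
      · rw [if_neg (by simpa using hy)]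
        have hx : x < 0 := by
          by_contra hx
          apply h
          rw [decide_eq_false hx, decide_eq_false hy]
        omega
    · rw [if_neg (by simpa using hlt), if_neg (by simpa using hlt)]
      have e5 := e3 (not_lt.1 hlt)
      unfold zmk
      by_cases hx : x < 0
      · rw [if_pos (decide_eq_true hx)]
        have hy : ¬ y < 0 := by
          intro hy
          apply h
          rw [decide_eq_true hx, decide_eq_true hy]
        omega
      · rw [if_neg (by simpa using hx)]
        have hy : y < 0 := by
          by_contra hy
          apply h
          rw [decide_eq_false hx, decide_eq_false hy]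
        omega

theorem zadd_thm : S_ZADD := by
  have h : PTime (fun p : ℤ × ℤ =>
      zmk (addS (decide (p.1 < 0)) (decide (p.2 < 0)) p.1.natAbs.bits p.2.natAbs.bits)
        (addA (decide (p.1 < 0)) (decide (p.2 < 0)) p.1.natAbs.bits p.2.natAbs.bits)) := by
    unfold addS addA
    fun_prop
  exact h.congr fun p => (add_eq p.1 p.2).symm

end Pool.HMS
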