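import Pool.Agent.H48.HMS.Stm

/-! # HMS: multiplication of binary integers in polynomial time -/

set_option autoImplicit false

namespace Pool.HMS

open TMLib Finset Polynomial Pool.Agent.H74.PPAD

private lemma mul_eq (x y : ℤ) :
    zmk (decide (x < 0) ^^ decide (y < 0)) (mulB x.natAbs.bits y.natAbs.bits) = x * y := by
  unfold zmk
  rw [mulB_spec, num_bits', num_bits']
  push_cast
  by_cases hx : x < 0
  · have ex : |x| = -x := abs_of_neg hx
    by_cases hy : y < 0
    · have ey : |y| = -y := abs_of_neg hy
      have : (decide (x < 0) ^^ decide (y < 0)) = false := by simp [hx, hy]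
      rw [this, if_neg (by simp), ex, ey]
      ring
    · have ey : |y| = y := abs_of_nonneg (not_lt.1 hy)
      have : (decide (x < 0) ^^ decide (y < 0)) = true := by simp [hx, hy]
      rw [this, if_pos rfl, ex, ey]
      ring
  · have ex : |x| = x := abs_of_nonneg (not_lt.1 hx)
    by_cases hy : y < 0
    · have ey : |y| = -y := abs_of_neg hy
      have : (decide (x < 0) ^^ decide (y < 0)) = true := by simp [hx, hy]
      rw [this, if_pos rfl, ex, ey]
      ring
    · have ey : |y| = y := abs_of_nonneg (not_lt.1 hy)
      have : (decide (x < 0) ^^ decide (y < 0)) = false := by simp [hx, hy]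
      rw [this, if_neg (by simp), ex, ey]

theorem zmul_thm : S_ZMUL := by
  have h : PTime (fun p : ℤ × ℤ =>
      zmk (decide (p.1 < 0) ^^ decide (p.2 < 0)) (mulB p.1.natAbs.bits p.2.natAbs.bits)) := by
    fun_prop
  exact h.congr fun p => (mul_eq p.1 p.2).symm

end Pool.HMS
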